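import Pool.Agent.MP_52bf41_ag.H12.Spec

/-! First consequences of a standard atlas. -/

open AlgebraicGeometry CategoryTheory Limits Polynomial

namespace Pool.Agent.MP_52bf41_ag.H19

open H12

section Away

variable {R S : Type} [CommRing R] [CommRing S] {φ : R →+* S} {g : R}

theorem away_unit (h : IsAway φ g) : IsUnit (φ g) := by
  let := φ.toAlgebra
  have : IsLocalization.Away g S := h
  exact IsLocalization.Away.algebraMap_isUnit g

theorem away_reg (h : IsAway φ g) {x : R} (hx : x ∈ nonZeroDivisors R) :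
    φ x ∈ nonZeroDivisors S := by
  let := φ.toAlgebra
  have : IsLocalization.Away g S := h
  exact IsLocalization.nonZeroDivisors_le_comap (M := Submonoid.powers g) (S := S) hx

theorem away_inj (h : IsAway φ g) (hg : g ∈ nonZeroDivisors R) : Function.Injective φ := by
  let := φ.toAlgebra
  have : IsLocalization.Away g S := h
  exact IsLocalization.injective (M := Submonoid.powers g) S (Submonoid.powers_le.mpr hg)

theorem away_surj (h : IsAway φ g) (b : S) : ∃ (n : ℕ) (a : R), b * φ g ^ n = φ a := by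
  let := φ.toAlgebra
  have : IsLocalization.Away g S := h
  exact IsLocalization.Away.surj g b

theorem away_lift (h : IsAway φ g) {T : Type} [CommRing T] (ψ : R →+* T) (hψ : IsUnit (ψ g)) :
    ∃ ε : S →+* T, ∀ a, ε (φ a) = ψ a := by
  let := φ.toAlgebra
  have : IsLocalization.Away g S := h
  exact ⟨IsLocalization.Away.lift g hψ, fun a => IsLocalization.Away.lift_eq g hψ a⟩

theorem away_flat (h : IsAway φ g) : φ.Flat := by
  let := φ.toAlgebra
  have : IsLocalization.Away g S := h
  exact RingHom.Flat.holdsForLocalizationAway S g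

end Away

variable {A : Type} [CommRing A] {D : ℕ} {q t : Fin D → A}

theorem gpol_zero (hq : Good q) (a : Option (Fin D)) : IsUnit ((gpol q t a).eval 0) := by
  cases a with
  | none => simp [gpol, eval_prod]
  | some i =>
    simp only [gpol, eval_prod, eval_add, eval_C, eval_mul, eval_X, mul_zero, add_zero]
    exact IsUnit.prod_iff.mpr fun l hl => hq.1 i l (Finset.ne_of_mem_erase hl).symm

section Chart

variable {B : Type} [CommRing B] {φ : A →+* B} {s : B} {g : A[X]}

theorem chart_reg (h : IsAway (eval₂RingHom φ s) g) : s ∈ nonZeroDivisors B := by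
  simpa using away_reg h (monic_X (R := A)).mem_nonZeroDivisors

theorem chart_eps (h : IsAway (eval₂RingHom φ s) g) (hg : IsUnit (g.eval 0)) :
    ∃ ε : B →+* A, ε s = 0 ∧ ∀ a, ε (φ a) = a := by
  obtain ⟨ε, hε⟩ := away_lift h (evalRingHom 0) hg
  exact ⟨ε, by simpa using hε X, fun a => by simpa using hε (C a)⟩

theorem mk_eval₂ (p : A[X]) : Ideal.Quotient.mk (Ideal.span {s}) (p.eval₂ φ s) =
    Ideal.Quotient.mk (Ideal.span {s}) (φ (p.eval 0)) := by
  rw [hom_eval₂, Ideal.Quotient.eq_zero_iff_mem.mpr (Ideal.mem_span_singleton_self s),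
    eval₂_at_zero, coeff_zero_eq_eval_zero]
  rfl

theorem chart_bij (h : IsAway (eval₂RingHom φ s) g) (hg : IsUnit (g.eval 0)) :
    Function.Bijective ((Ideal.Quotient.mk (Ideal.span {s})).comp φ) := by
  obtain ⟨ε, h1, h2⟩ := chart_eps h hg
  refine ⟨(injective_iff_map_eq_zero _).mpr fun a ha => ?_, fun b => ?_⟩
  · obtain ⟨c, hc⟩ := Ideal.mem_span_singleton'.mp (Ideal.Quotient.eq_zero_iff_mem.mp ha)
    rw [← h2 a, ← hc, map_mul, h1, mul_zero]
  · obtain ⟨b, rfl⟩ := Ideal.Quotient.mk_surjective b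
    obtain ⟨n, p, hp⟩ := away_surj h b
    obtain ⟨e, he⟩ := hg.exists_right_inv
    refine ⟨p.eval 0 * e ^ n, ?_⟩
    have := congrArg (Ideal.Quotient.mk (Ideal.span {s})) hp
    simp only [coe_eval₂RingHom, map_mul, map_pow, mk_eval₂] at this
    simp only [RingHom.comp_apply, map_mul, map_pow]
    rw [← this, mul_assoc, ← mul_pow, ← map_mul, ← map_mul, he]
    simp

theorem chart_flat (h : IsAway (eval₂RingHom φ s) g) : φ.Flat := by
  have h1 : (C : A →+* A[X]).Flat := by
    rw [← algebraMap_eq, RingHom.flat_algebraMap_iff]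
    infer_instance
  have e : φ = (eval₂RingHom φ s).comp C := by
    ext a
    simp
  rw [e]
  exact h1.comp (away_flat h)

theorem rev_eval (φ : A →+* B) {x y : B} (h : x * y = 1) (P : A[X]) :
    eval₂ φ y P.reverse * x ^ P.natDegree = eval₂ φ x P :=
  letI : Invertible x := ⟨y, by rw [mul_comm, h], h⟩
  eval₂_reverse_mul_pow φ x P

end Chart

/-- The point of an affine chart attached to a ring map. -/
theorem exists_point {C : Scheme.{0}} {U : C.Opens} (hU : IsAffineOpen U) (ε : Γ(C, U) →+* A) :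
    ∃ (τ : Spec (.of A) ⟶ C) (h : ⊤ ≤ τ ⁻¹ᵁ U), ∀ b, ev τ h b = ε b := by
  have h0 : ⊤ ≤ hU.fromSpec ⁻¹ᵁ U := hU.fromSpec_preimage_self.ge
  refine ⟨Spec.map (CommRingCat.ofHom ε) ≫ hU.fromSpec,
    le_top.trans ((Spec.map (CommRingCat.ofHom ε)).preimage_mono h0), fun b => ?_⟩
  apply pb_id_bijective.1
  have e1 : pl hU.fromSpec h0 b = pb (𝟙 (Spec (.of Γ(C, U)))) b := by
    simp only [pl, pb, Scheme.Hom.appLE, hU.fromSpec_app_self, Category.assoc, ← Functor.map_comp]
    simp
    rfl
  rw [pb_ev, ← pl_pl hU.fromSpec (Spec.map (CommRingCat.ofHom ε)) h0 le_top, e1, pl_top,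
    ← pb_comp, ← pb_spec, Category.id_comp]
  exact congrArg (fun f => pb f b) (Category.comp_id _)

variable {F : Fam (Spec (.of A))}

theorem rel_eq (S : Std F q t) (i : Fin D) :
    (S.u none - alg F.π _ (q i)) * S.u (some i) = alg F.π _ (t i) := by
  have := (S.pres.2 (rel q t i)).mpr (Ideal.subset_span ⟨i, rfl⟩)
  simpa [rel, sub_eq_zero] using this

theorem ext1 (S : Std F q t) (i : Fin D) :
    res (inf_le_left : S.O0 ⊓ S.O (some i) ≤ _) (S.u none) =
      res inf_le_right (alg F.π _ (q i) + alg F.π _ (t i) * S.s (some i)) := by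
  have h1 := congrArg (res (inf_le_left : S.O0 ⊓ S.O (some i) ≤ _)) (rel_eq S i)
  have h2 := S.us (some i)
  simp only [map_mul, map_sub, map_add, res_alg] at h1 ⊢
  linear_combination (res inf_le_right (S.s (some i))) * h1
    - (res inf_le_left (S.u none) - alg F.π _ (q i)) * h2

theorem sExt : SExt := by
  intro A _ D F q t S _
  refine ⟨ext1 S, fun i => ?_, fun i l hil => ?_⟩
  · have hu := away_unit (S.loc none)
    simp only [gpol, map_prod] at hu
    obtain ⟨e, he⟩ := (IsUnit.prod_iff.mp hu i (Finset.mem_univ i)).exists_right_inv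
    refine ⟨alg F.π _ (t i) * e, ?_⟩
    have h1 := congrArg (res (inf_le_left : S.O0 ⊓ S.O none ≤ _)) (rel_eq S i)
    have h2 := S.us none
    have h3 := congrArg (res (inf_le_right : S.O0 ⊓ S.O none ≤ _)) he
    simp only [map_mul, map_sub, map_one, res_alg, coe_eval₂RingHom, eval₂_C, eval₂_X] at h1 h3 ⊢
    linear_combination (res inf_le_right (S.s none) * res inf_le_right e) * h1
      - (res inf_le_left (S.u (some i)) * res inf_le_right e) * h2
      - res inf_le_left (S.u (some i)) * h3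
  · have hu := away_unit (S.loc (some l))
    simp only [gpol, map_prod] at hu
    obtain ⟨e, he⟩ := (IsUnit.prod_iff.mp hu i
      (Finset.mem_erase.mpr ⟨hil, Finset.mem_univ i⟩)).exists_right_inv
    refine ⟨alg F.π _ (t i) * e, ?_⟩
    have h1 := congrArg (res (inf_le_left : S.O0 ⊓ S.O (some l) ≤ _)) (rel_eq S i)
    have h2 := ext1 S l
    have h3 := congrArg (res (inf_le_right : S.O0 ⊓ S.O (some l) ≤ _)) he
    simp only [map_mul, map_sub, map_add, map_one, res_alg, coe_eval₂RingHom, eval₂_C,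
      eval₂_X] at h1 h2 h3 ⊢
    linear_combination (res inf_le_right e) * h1
      - (res inf_le_left (S.u (some i)) * res inf_le_right e) * h2
      - res inf_le_left (S.u (some i)) * h3

theorem sSec : SSec := by
  intro A _ D F q t S hq a
  refine ⟨chart_reg (S.loc a), chart_bij (S.loc a) (gpol_zero hq a), ?_⟩
  obtain ⟨ε, h1, h2⟩ := chart_eps (S.loc a) (gpol_zero hq a)
  obtain ⟨τ, h, hτ⟩ := exists_point (S.aff a) ε
  refine ⟨τ, h, hom_ext_pb (RingHom.ext fun c => ?_), by rw [hτ, h1]⟩
  rw [← alg_top, ← pl_alg τ F.π h, ← pb_ev, hτ, h2]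

theorem res_inj (S : Std F q t) (a : Option (Fin D)) :
    Function.Injective (res (inf_le_right : S.O0 ⊓ S.O a ≤ _)) :=
  away_inj (isAway_res (S.aff a) (S.s a) _ (S.inter a)) (chart_reg (S.loc a))

theorem sDense : SDense := by
  intro A _ D F q t S _ V
  refine (injective_iff_map_eq_zero _).mpr fun b hb => eq_of_local fun x hx => ?_
  have hx' : x ∈ S.O0 ⊔ iSup S.O := S.cover.ge (Set.mem_univ x)
  rcases hx' with h0 | h0
  · exact ⟨V ⊓ S.O0, inf_le_left, ⟨hx, h0⟩, by rw [hb, map_zero]⟩
  · obtain ⟨a, ha⟩ := TopologicalSpace.Opens.mem_iSup.mp h0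
    obtain ⟨f, hf, hxf⟩ := (S.aff a).exists_basicOpen_le ⟨x, hx⟩ ha
    refine ⟨F.C.basicOpen f, hf, hxf, ?_⟩
    have hle := F.C.basicOpen_le f
    have hreg := away_reg (isAway_res (S.aff a) f hle rfl) (chart_reg (S.loc a))
    have hW : F.C.basicOpen f ⊓ S.O0 = F.C.basicOpen (res hle (S.s a)) := by
      rw [basicOpen_res, ← S.inter a, ← inf_assoc, inf_eq_left.mpr (inf_le_left.trans hle)]
    refine away_inj (isAway_res ((S.aff a).basicOpen f) _ inf_le_left hW) hreg ?_
    rw [res_res, res_res, map_zero, ← res_res inf_le_left (inf_le_inf_right S.O0 hf), hb, map_zero]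

theorem flat_of_alg {C : Scheme.{0}} (p : C ⟶ Spec (.of A)) {ι : Type} (U : ι → C.Opens)
    (hU : ∀ i, IsAffineOpen (U i)) (hc : iSup U = ⊤) (h : ∀ i, (alg p (U i)).Flat) : Flat p := by
  refine HasRingHomProperty.of_iSup_eq_top (P := @Flat) (fun i => ⟨U i, hU i⟩) hc fun i => ?_
  exact (RingHom.Flat.comp_iff_of_bijective_right (g := (Scheme.ΓSpecIso (.of A)).inv.hom)
    (Scheme.ΓSpecIso (.of A)).symm.commRingCatIsoToRingEquiv.bijective).mp (h i)

theorem sStdFlat (hP : SPresFlat) : SStdFlat := by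
  rintro A _ D F q t hq ⟨S⟩
  refine flat_of_alg F.π (fun o : Option (Option (Fin D)) => o.elim S.O0 S.O) ?_ ?_ ?_
  · rintro (_ | a)
    exacts [S.aff0, S.aff a]
  · rw [iSup_option]
    exact S.cover
  · rintro (_ | a)
    exacts [hP _ _ D _ S.u q t hq S.pres, chart_flat (S.loc a)]

theorem all_ext (S : Std F q t) (hq : Good q) (a b : Option (Fin D)) (h : b ≠ a) :
    ∃ v, res (inf_le_left : S.O0 ⊓ S.O a ≤ _) (S.u b) = res inf_le_right v ∧
      (a = none → v ∈ Ideal.span {S.s a}) := by
  obtain ⟨h1, h2, h3⟩ := sExt A D F q t S hq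
  rcases a with _ | l <;> rcases b with _ | i
  · exact absurd rfl h
  · obtain ⟨v, hv⟩ := h2 i
    exact ⟨_, hv, fun _ => Ideal.mul_mem_right _ _ (Ideal.mem_span_singleton_self _)⟩
  · exact ⟨_, h1 l, fun e => by cases e⟩
  · obtain ⟨v, hv⟩ := h3 i l fun e => h (congrArg some e)
    exact ⟨v, hv, fun e => by cases e⟩

theorem res_eval₂ {C : Scheme.{0}} (p : C ⟶ Spec (.of A)) {U V : C.Opens} (h : V ≤ U)
    (P : A[X]) (x : Γ(C, U)) : res h (P.eval₂ (alg p U) x) = P.eval₂ (alg p V) (res h x) := by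
  rw [hom_eval₂]
  congr 1
  ext a
  simp

theorem polar (S : Std F q t) (hq : Good q) (c : A) (P : Option (Fin D) → A[X])
    (a : Option (Fin D)) : ∃ e, (a = none → e - alg F.π _ c ∈ Ideal.span {S.s a}) ∧
      res (inf_le_left : S.O0 ⊓ S.O a ≤ _) (comb (alg F.π S.O0) S.u c P) = res inf_le_right e +
        res inf_le_left (S.u a) * (P a).eval₂ (alg F.π _) (res inf_le_left (S.u a)) := by
  classical
  choose! v hv hv' using all_ext S hq a
  refine ⟨alg F.π _ c + ∑ b ∈ Finset.univ.erase a, v b * (P b).eval₂ (alg F.π _) (v b),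
    fun ha => ?_, ?_⟩
  · rw [add_sub_cancel_left]
    exact Ideal.sum_mem _ fun b hb =>
      Ideal.mul_mem_right _ _ (hv' b (Finset.ne_of_mem_erase hb) ha)
  · rw [comb, ← Finset.sum_erase_add _ _ (Finset.mem_univ a)]
    simp only [map_add, map_sum, map_mul, res_alg, res_eval₂, add_assoc]
    congr 2
    exact Finset.sum_congr rfl fun b hb => by rw [hv b (Finset.ne_of_mem_erase hb)]

theorem sPole (hS : SSpan) : SPole := by
  intro A _ D F q t S hq b n b' hb
  obtain ⟨c, P, rfl⟩ := hS _ _ D _ S.u q t hq S.pres.1 (rel_eq S) b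
  have hdeg : ∀ a, P a ∈ degreeLT A (n a) := by
    intro a
    rw [mem_degreeLT]
    by_contra hlt
    have hP0 : P a ≠ 0 := fun e => hlt (by rw [e, degree_zero]; exact WithBot.bot_lt_coe _)
    rw [degree_eq_natDegree hP0, Nat.cast_lt, not_lt] at hlt
    obtain ⟨m, hm⟩ := Nat.exists_eq_add_of_le hlt
    obtain ⟨e, -, he⟩ := polar S hq c P a
    obtain ⟨ε, h1, h2⟩ := chart_eps (S.loc a) (gpol_zero hq a)
    have hus := S.us a
    have hrev := rev_eval (alg F.π _) hus (P a)
    have hpow : (res (inf_le_left : S.O0 ⊓ S.O a ≤ _) (S.u a) * res inf_le_right (S.s a)) ^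
        ((P a).natDegree + 1) = 1 := by rw [hus, one_pow]
    have key : eval₂ (alg F.π _) (S.s a) (P a).reverse =
        S.s a * (b' a * S.s a ^ m - e * S.s a ^ (P a).natDegree) := by
      apply res_inj S a
      have hba := hb a
      rw [he, ← hrev] at hba
      simp only [map_mul, map_sub, map_pow, res_eval₂]
      rw [← hba]
      rw [hm] at hpow ⊢
      linear_combination (-eval₂ (alg F.π _) (res inf_le_right (S.s a)) (P a).reverse) * hpow
    have := congrArg ε key
    rw [hom_eval₂, map_mul, h1, zero_mul, eval₂_at_zero, RingHom.comp_apply, h2,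
      coeff_zero_reverse] at this
    exact hP0 (leadingCoeff_eq_zero.mp this)
  refine ⟨c, P, rfl, hdeg, fun hn => ?_⟩
  have hP0 : P none = 0 := by
    have := hdeg none
    rw [hn, mem_degreeLT] at this
    exact degree_eq_bot.mp (Nat.WithBot.lt_zero_iff.mp this)
  obtain ⟨e, he1, he⟩ := polar S hq c P none
  have hba := hb none
  rw [hn, pow_zero, mul_one, he, hP0, eval₂_zero, mul_zero, add_zero] at hba
  obtain ⟨w, hw⟩ := Ideal.mem_span_singleton'.mp (he1 rfl)
  rw [← res_inj S none hba, ← sub_add_cancel e (alg F.π _ c), ← hw, map_add, map_mul, S.e2,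
    mul_zero, zero_add, ev_alg _ (F.sec 2)]

end Pool.Agent.MP_52bf41_ag.H19
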